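import Pool.Agent.Lib.MP_67d80e_pr_shp.Sb

set_option autoImplicit false
set_option maxRecDepth 100000

namespace Pool.Agent.Lib.MP_67d80e_pr_shp

theorem sb_chk40 : allN 256 (fun i => chk sbT 1000000 1966578 (Nat.add 10240 i)) = true := by
  decide +kernel

theorem sb_chk41 : allN 256 (fun i => chk sbT 1000000 1966578 (Nat.add 10496 i)) = true := by
  decide +kernel

theorem sb_chk42 : allN 146 (fun i => chk sbT 1000000 1966578 (Nat.add 10752 i)) = true := by
  decide +kernel

end Pool.Agent.Lib.MP_67d80e_pr_shp
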