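import Pool.Agent.Lib.MP_67d80e_pr_shp.Sb

set_option autoImplicit false
set_option maxRecDepth 100000

namespace Pool.Agent.Lib.MP_67d80e_pr_shp

theorem sb_chk16 : allN 256 (fun i => chk sbT 1000000 1966578 (Nat.add 4096 i)) = true := by
  decide +kernel

theorem sb_chk17 : allN 256 (fun i => chk sbT 1000000 1966578 (Nat.add 4352 i)) = true := by
  decide +kernel

theorem sb_chk18 : allN 256 (fun i => chk sbT 1000000 1966578 (Nat.add 4608 i)) = true := by
  decide +kernel

theorem sb_chk19 : allN 256 (fun i => chk sbT 1000000 1966578 (Nat.add 4864 i)) = true := by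
  decide +kernel

end Pool.Agent.Lib.MP_67d80e_pr_shp
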