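import Pool.Agent.Lib.MP_67d80e_pr_shp.Sb

set_option autoImplicit false
set_option maxRecDepth 100000

namespace Pool.Agent.Lib.MP_67d80e_pr_shp

theorem sb_chk36 : allN 256 (fun i => chk sbT 1000000 1966578 (Nat.add 9216 i)) = true := by
  decide +kernel

theorem sb_chk37 : allN 256 (fun i => chk sbT 1000000 1966578 (Nat.add 9472 i)) = true := by
  decide +kernel

theorem sb_chk38 : allN 256 (fun i => chk sbT 1000000 1966578 (Nat.add 9728 i)) = true := by
  decide +kernel

theorem sb_chk39 : allN 256 (fun i => chk sbT 1000000 1966578 (Nat.add 9984 i)) = true := by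
  decide +kernel

end Pool.Agent.Lib.MP_67d80e_pr_shp
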