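import Pool.Agent.Lib.MP_67d80e_pr_shp.SbChk0
import Pool.Agent.Lib.MP_67d80e_pr_shp.SbChk1
import Pool.Agent.Lib.MP_67d80e_pr_shp.SbChk2
import Pool.Agent.Lib.MP_67d80e_pr_shp.SbChk3
import Pool.Agent.Lib.MP_67d80e_pr_shp.SbChk4
import Pool.Agent.Lib.MP_67d80e_pr_shp.SbChk5
import Pool.Agent.Lib.MP_67d80e_pr_shp.SbChk6
import Pool.Agent.Lib.MP_67d80e_pr_shp.SbChk7
import Pool.Agent.Lib.MP_67d80e_pr_shp.SbChk8
import Pool.Agent.Lib.MP_67d80e_pr_shp.SbChk9
import Pool.Agent.Lib.MP_67d80e_pr_shp.SbChk10

set_option autoImplicit false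

open Pool.Agent.Lib.MP_67d80e_pr_all

namespace Pool.Agent.Lib.MP_67d80e_pr_shp

theorem sb_all : ∀ i < sbT.N, chk sbT 1000000 1966578 i = true := by
  intro i hi
  have hi : i < 10898 := hi
  have key : ∀ b m : ℕ, b ≤ i → i < b + m → allN m (fun j => chk sbT 1000000 1966578 (Nat.add b j)) = true →
      chk sbT 1000000 1966578 i = true := by
    intro b m h1 h2 h3
    have h4 := allN_spec h3 (show i - b < m by omega)
    have h5 : Nat.add b (i - b) = i := by change b + (i - b) = i; omega
    simp only [h5] at h4
    exact h4
  by_cases h0 : i < 256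
  · exact key 0 256 (by omega) (by omega) sb_chk0
  by_cases h1 : i < 512
  · exact key 256 256 (by omega) (by omega) sb_chk1
  by_cases h2 : i < 768
  · exact key 512 256 (by omega) (by omega) sb_chk2
  by_cases h3 : i < 1024
  · exact key 768 256 (by omega) (by omega) sb_chk3
  by_cases h4 : i < 1280
  · exact key 1024 256 (by omega) (by omega) sb_chk4
  by_cases h5 : i < 1536
  · exact key 1280 256 (by omega) (by omega) sb_chk5
  by_cases h6 : i < 1792
  · exact key 1536 256 (by omega) (by omega) sb_chk6
  by_cases h7 : i < 2048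
  · exact key 1792 256 (by omega) (by omega) sb_chk7
  by_cases h8 : i < 2304
  · exact key 2048 256 (by omega) (by omega) sb_chk8
  by_cases h9 : i < 2560
  · exact key 2304 256 (by omega) (by omega) sb_chk9
  by_cases h10 : i < 2816
  · exact key 2560 256 (by omega) (by omega) sb_chk10
  by_cases h11 : i < 3072
  · exact key 2816 256 (by omega) (by omega) sb_chk11
  by_cases h12 : i < 3328
  · exact key 3072 256 (by omega) (by omega) sb_chk12
  by_cases h13 : i < 3584
  · exact key 3328 256 (by omega) (by omega) sb_chk13
  by_cases h14 : i < 3840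
  · exact key 3584 256 (by omega) (by omega) sb_chk14
  by_cases h15 : i < 4096
  · exact key 3840 256 (by omega) (by omega) sb_chk15
  by_cases h16 : i < 4352
  · exact key 4096 256 (by omega) (by omega) sb_chk16
  by_cases h17 : i < 4608
  · exact key 4352 256 (by omega) (by omega) sb_chk17
  by_cases h18 : i < 4864
  · exact key 4608 256 (by omega) (by omega) sb_chk18
  by_cases h19 : i < 5120
  · exact key 4864 256 (by omega) (by omega) sb_chk19
  by_cases h20 : i < 5376
  · exact key 5120 256 (by omega) (by omega) sb_chk20
  by_cases h21 : i < 5632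
  · exact key 5376 256 (by omega) (by omega) sb_chk21
  by_cases h22 : i < 5888
  · exact key 5632 256 (by omega) (by omega) sb_chk22
  by_cases h23 : i < 6144
  · exact key 5888 256 (by omega) (by omega) sb_chk23
  by_cases h24 : i < 6400
  · exact key 6144 256 (by omega) (by omega) sb_chk24
  by_cases h25 : i < 6656
  · exact key 6400 256 (by omega) (by omega) sb_chk25
  by_cases h26 : i < 6912
  · exact key 6656 256 (by omega) (by omega) sb_chk26
  by_cases h27 : i < 7168
  · exact key 6912 256 (by omega) (by omega) sb_chk27
  by_cases h28 : i < 7424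
  · exact key 7168 256 (by omega) (by omega) sb_chk28
  by_cases h29 : i < 7680
  · exact key 7424 256 (by omega) (by omega) sb_chk29
  by_cases h30 : i < 7936
  · exact key 7680 256 (by omega) (by omega) sb_chk30
  by_cases h31 : i < 8192
  · exact key 7936 256 (by omega) (by omega) sb_chk31
  by_cases h32 : i < 8448
  · exact key 8192 256 (by omega) (by omega) sb_chk32
  by_cases h33 : i < 8704
  · exact key 8448 256 (by omega) (by omega) sb_chk33
  by_cases h34 : i < 8960
  · exact key 8704 256 (by omega) (by omega) sb_chk34
  by_cases h35 : i < 9216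
  · exact key 8960 256 (by omega) (by omega) sb_chk35
  by_cases h36 : i < 9472
  · exact key 9216 256 (by omega) (by omega) sb_chk36
  by_cases h37 : i < 9728
  · exact key 9472 256 (by omega) (by omega) sb_chk37
  by_cases h38 : i < 9984
  · exact key 9728 256 (by omega) (by omega) sb_chk38
  by_cases h39 : i < 10240
  · exact key 9984 256 (by omega) (by omega) sb_chk39
  by_cases h40 : i < 10496
  · exact key 10240 256 (by omega) (by omega) sb_chk40
  by_cases h41 : i < 10752
  · exact key 10496 256 (by omega) (by omega) sb_chk41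
  by_cases h42 : i < 10898
  · exact key 10752 146 (by omega) (by omega) sb_chk42
  omega

/-- the lower bound in dimension one -/
theorem sb_hasLB : HasLB 1 (1966578 / 1000000) := by
  have h := hasLB_of_chk (T := sbT) (u := 1000000) (c := 1966578) (D := 4) (by norm_num) (by change 0 < 10898; norm_num)
    (by decide +kernel) sb_all
  norm_num at h ⊢
  exact h

end Pool.Agent.Lib.MP_67d80e_pr_shp
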