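import Pool.Agent.Lib.MP_67d80e_pr_shp.Shape

/-!
The boolean check of a library of shapes in dimension one, and its soundness. A shape is coded by
the bits `x + 32 * k` (column `x`, level `k`).
-/

set_option autoImplicit false

open scoped BigOperators
open Pool.Agent.Lib.MP_67d80e_pr Pool.Agent.Lib.MP_67d80e_pr_all

namespace Pool.Agent.Lib.MP_67d80e_pr_shp

/-- the table of the shapes -/
structure Tb where
  /-- number of shapes -/
  N : ℕ
  /-- code -/
  cd : ℕ → ℕ
  /-- value -/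
  ph : ℕ → ℕ
  /-- number of rings -/
  m : ℕ → ℕ
  /-- column of a ring -/
  ex : ℕ → ℕ → ℕ
  /-- level of a ring -/
  ek : ℕ → ℕ → ℕ
  /-- target -/
  tj : ℕ → ℕ → ℕ
  /-- shift of the target -/
  tt : ℕ → ℕ → ℕ
  /-- rise -/
  ts : ℕ → ℕ → ℕ
  /-- reflection -/
  tr : ℕ → ℕ → Bool

/-- conjunction of `f k` for `k < n` -/
def allN (n : ℕ) (f : ℕ → Bool) : Bool :=
  Nat.rec true (fun k ih => cond (f k) ih false) n

/-- the sum of `f k` over `k < n` -/
def sumN (n : ℕ) (f : ℕ → ℕ) : ℕ :=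
  Nat.rec 0 (fun k ih => Nat.add (f k) ih) n

/-- the levels up to `k` in the column 0 -/
def pat (k : ℕ) : ℕ :=
  Nat.rec 1 (fun l ih => Nat.lor (Nat.shiftLeft 1 (Nat.mul 32 (Nat.succ l))) ih) k

/-- the star of level `k` with centre in the column 1 -/
def stc (k : ℕ) : ℕ :=
  Nat.lor (Nat.lor (pat k) (Nat.shiftLeft (pat k) 2)) (Nat.shiftLeft (pat (Nat.succ k)) 1)

/-- the columns below 14, levels below 8 -/
def mask : ℕ := Nat.mul 16383 (pat 7)

/-- the mirror image -/
def rev (c : ℕ) : ℕ :=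
  Nat.rec 0 (fun x ih => Nat.lor (Nat.shiftLeft (Nat.land (Nat.shiftRight c x) (pat 7))
    (Nat.sub 13 x)) ih) 14

/-- the image of the code `c` under a ring in the column `x` of level `k` -/
def img (c x k : ℕ) : ℕ := Nat.lor (Nat.shiftLeft c 1) (Nat.shiftLeft (stc k) x)

/-- `c` is contained in `c'` -/
def sub (c c' : ℕ) : Bool := Nat.beq (Nat.land c c') c

/-- the check of the ring `q` of the shape `i` -/
def okR (T : Tb) (i q : ℕ) : Bool :=
  and (Nat.ble (Nat.succ (T.tj i q)) T.N) (and (Nat.ble (T.tt i q) 15)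
    (and (Nat.ble (T.ek i q) 6)
    (and (or (Nat.beq q 0) (Nat.ble (Nat.succ (T.ex i (Nat.pred q))) (T.ex i q)))
    (and (Nat.beq (Nat.mod (Nat.shiftRight (T.cd i) (Nat.add (T.ex i q) (Nat.mul 32 (T.ek i q)))) 2) 1)
    (and (Nat.ble (T.ex i q) 13)
      (sub (Nat.shiftLeft (T.cd (T.tj i q)) (Nat.add (T.tt i q) (Nat.mul 32 (T.ts i q))))
        (cond (T.tr i q) (img (rev (T.cd i)) (Nat.sub 13 (T.ex i q)) (T.ek i q))
          (img (T.cd i) (T.ex i q) (T.ek i q)))))))))

/-- the check of the shape `i`; `u` is the unit of the values, `c` the rate -/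
def chk (T : Tb) (u c i : ℕ) : Bool :=
  and (not (Nat.beq (T.cd i) 0)) (and (sub (T.cd i) mask) (and (allN (T.m i) (okR T i))
    (Nat.ble (Nat.add c (Nat.mul (T.m i) (T.ph i)))
      (sumN (T.m i) (fun q => Nat.add (Nat.mul u (T.ts i q)) (T.ph (T.tj i q)))))))

/-! ### soundness -/

lemma allN_spec {n : ℕ} {f : ℕ → Bool} (h : allN n f = true) {k : ℕ} (hk : k < n) :
    f k = true := by
  induction n with
  | zero => omega
  | succ n ih =>
    have h' : cond (f n) (allN n f) false = true := h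
    cases hf : f n with
    | false => rw [hf] at h'; simp at h'
    | true =>
      rw [hf] at h'
      rcases Nat.lt_succ_iff_lt_or_eq.1 hk with h1 | h1
      · exact ih h' h1
      · rw [h1]; exact hf

lemma sumN_eq (n : ℕ) (f : ℕ → ℕ) : sumN n f = ∑ k ∈ Finset.range n, f k := by
  induction n with
  | zero => rfl
  | succ n ih =>
    change f n + sumN n f = _
    rw [Finset.sum_range_succ, ← ih, add_comm (f n)]

lemma band_iff {a b : Bool} : (and a b) = true ↔ a = true ∧ b = true := by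
  cases a <;> cases b <;> simp

lemma bor_iff {a b : Bool} : (or a b) = true ↔ a = true ∨ b = true := by
  cases a <;> cases b <;> simp

lemma bnot_iff {a : Bool} : (not a) = true ↔ a = false := by
  cases a <;> simp

lemma beq_iff {a b : ℕ} : Nat.beq a b = true ↔ a = b := Nat.beq_eq ▸ Iff.rfl

lemma ble_iff {a b : ℕ} : Nat.ble a b = true ↔ a ≤ b := Nat.ble_eq ▸ Iff.rfl

lemma sub_iff {c c' : ℕ} (h : sub c c' = true) {N : ℕ} (hN : c.testBit N = true) :
    c'.testBit N = true := by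
  have h0 : Nat.land c c' = c := beq_iff.1 h
  have h1 : (c &&& c').testBit N = true := by
    change (Nat.land c c').testBit N = true
    rw [h0]; exact hN
  rw [Nat.testBit_and, Bool.and_eq_true] at h1
  exact h1.2

lemma testBit_pat (k N : ℕ) : (pat k).testBit N = true ↔ ∃ l ≤ k, N = 32 * l := by
  induction k with
  | zero =>
    change (1 : ℕ).testBit N = true ↔ _
    rw [Nat.testBit_one_eq_true_iff_self_eq_zero]
    constructor
    · rintro rfl; exact ⟨0, le_rfl, rfl⟩
    · rintro ⟨l, hl, rfl⟩; omega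
  | succ k ih =>
    change ((1 <<< (32 * (k + 1))) ||| pat k).testBit N = true ↔ _
    rw [Nat.testBit_or, Bool.or_eq_true, ih, Nat.testBit_shiftLeft, Bool.and_eq_true,
      decide_eq_true_eq, Nat.testBit_one_eq_true_iff_self_eq_zero]
    constructor
    · rintro (⟨h1, h2⟩ | ⟨l, h1, h2⟩)
      · exact ⟨k + 1, le_rfl, by omega⟩
      · exact ⟨l, by omega, h2⟩
    · rintro ⟨l, h1, h2⟩
      rcases Nat.lt_or_ge l (k + 1) with h3 | h3
      · exact Or.inr ⟨l, by omega, h2⟩
      · exact Or.inl (by have : l = k + 1 := by omega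
                         subst this; omega)

lemma testBit_stc {k N : ℕ} (h : (stc k).testBit N = true) :
    (∃ l ≤ k + 1, N = 1 + 32 * l) ∨ (∃ l ≤ k, N = 32 * l) ∨ ∃ l ≤ k, N = 2 + 32 * l := by
  change (((pat k) ||| ((pat k) <<< 2)) ||| ((pat (k + 1)) <<< 1)).testBit N = true at h
  rw [Nat.testBit_or, Nat.testBit_or, Bool.or_eq_true, Bool.or_eq_true, Nat.testBit_shiftLeft,
    Nat.testBit_shiftLeft, Bool.and_eq_true, Bool.and_eq_true, decide_eq_true_eq,
    decide_eq_true_eq, testBit_pat, testBit_pat, testBit_pat] at h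
  rcases h with (⟨l, h1, h2⟩ | ⟨h0, l, h1, h2⟩) | ⟨h0, l, h1, h2⟩
  · exact Or.inr (Or.inl ⟨l, h1, h2⟩)
  · exact Or.inr (Or.inr ⟨l, h1, by omega⟩)
  · exact Or.inl ⟨l, h1, by omega⟩

lemma testBit_mask {N : ℕ} (h : mask.testBit N = true) : ∃ x l, x < 14 ∧ l < 8 ∧ N = x + 32 * l := by
  have h1 : mask < 2 ^ 256 := by decide +kernel
  have hN : N < 256 := by
    by_contra hcon
    rw [Nat.testBit_lt_two_pow (h1.trans_le (Nat.pow_le_pow_right (by norm_num)
      (by omega : 256 ≤ N)))] at h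
    exact absurd h (by simp)
  have h2 : ∀ N < 256, mask.testBit N = true → N % 32 < 14 := by decide +kernel
  refine ⟨N % 32, N / 32, h2 N hN h, by omega, by omega⟩

lemma testBit_rev {c N : ℕ} (h : (rev c).testBit N = true) :
    ∃ x l, x < 14 ∧ l < 8 ∧ N = x + 32 * l ∧ c.testBit ((13 - x) + 32 * l) = true := by
  have key : ∀ n ≤ 14, ∀ N, (Nat.rec (motive := fun _ => ℕ) 0 (fun x ih =>
      Nat.lor (Nat.shiftLeft (Nat.land (Nat.shiftRight c x) (pat 7)) (Nat.sub 13 x)) ih)
        n).testBit N = true →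
      ∃ y l, y < n ∧ N = (13 - y) + 32 * l ∧ l < 8 ∧ c.testBit (y + 32 * l) = true := by
    intro n
    induction n with
    | zero =>
      intro _ N h
      exact absurd h (by simp)
    | succ n ih =>
      intro hn N h
      change ((((c >>> n) &&& (pat 7)) <<< (13 - n)) ||| _).testBit N = true at h
      rw [Nat.testBit_or, Bool.or_eq_true] at h
      rcases h with h | h
      · rw [Nat.testBit_shiftLeft, Bool.and_eq_true, decide_eq_true_eq, Nat.testBit_and,
          Bool.and_eq_true, Nat.testBit_shiftRight, testBit_pat] at h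
        obtain ⟨h1, h2, l, h3, h4⟩ := h
        refine ⟨n, l, by omega, by omega, by omega, ?_⟩
        rw [h4] at h2
        exact h2
      · obtain ⟨y, l, h1, h2⟩ := ih (by omega) N h
        exact ⟨y, l, by omega, h2⟩
  obtain ⟨y, l, h1, h2, h3, h4⟩ := key 14 le_rfl N h
  refine ⟨13 - y, l, by omega, h3, h2, ?_⟩
  rw [show 13 - (13 - y) = y by omega]
  exact h4

/-- the site of a column -/
def st (x : ℤ) : Site 1 := fun _ => x

lemma st_add (x y : ℤ) : st x + st y = st (x + y) := rfl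

lemma st_inj {x y : ℤ} (h : st x = st y) : x = y := congrFun h 0

/-- the shape of a code -/
def shp (c : ℕ) : Shp 1 :=
  ((List.range 14 ×ˢ List.range 8).filter (fun p => c.testBit (p.1 + 32 * p.2))).map
    (fun p => (st p.1, (p.2 : ℤ)))

lemma mem_shp {c : ℕ} {p : Site 1 × ℤ} : p ∈ shp c ↔ ∃ x l : ℕ, x < 14 ∧ l < 8 ∧
    c.testBit (x + 32 * l) = true ∧ p = (st x, (l : ℤ)) := by
  unfold shp
  rw [List.mem_map]
  constructor
  · rintro ⟨⟨x, l⟩, h, rfl⟩
    rw [List.mem_filter, List.mem_product, List.mem_range, List.mem_range] at h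
    exact ⟨x, l, h.1.1, h.1.2, h.2, rfl⟩
  · rintro ⟨x, l, h1, h2, h3, rfl⟩
    refine ⟨(x, l), ?_, rfl⟩
    rw [List.mem_filter, List.mem_product, List.mem_range, List.mem_range]
    exact ⟨⟨h1, h2⟩, h3⟩

/-- what the check of a shape says -/
structure Spec (T : Tb) (u c i : ℕ) : Prop where
  ne : T.cd i ≠ 0
  msk : ∀ N, (T.cd i).testBit N = true → ∃ x l, x < 14 ∧ l < 8 ∧ N = x + 32 * l
  ok : ∀ q < T.m i, okR T i q = true
  sum : c + T.m i * T.ph i ≤ ∑ q ∈ Finset.range (T.m i), (u * T.ts i q + T.ph (T.tj i q))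

lemma spec {T : Tb} {u c i : ℕ} (h : chk T u c i = true) : Spec T u c i := by
  unfold chk at h
  simp only [band_iff, ble_iff, bnot_iff] at h
  obtain ⟨h1, h2, h3, h4⟩ := h
  refine ⟨fun h0 => ?_, fun N hN => testBit_mask (sub_iff h2 hN), fun q hq => allN_spec h3 hq, ?_⟩
  · rw [h0] at h1
    exact absurd h1 (by decide)
  · rw [sumN_eq] at h4
    exact h4

lemma lt_of_ring {T : Tb} {i : ℕ} (h : ∀ q < T.m i, okR T i q = true) {q q' : ℕ}
    (hq' : q' < T.m i) (hqq : q < q') : T.ex i q < T.ex i q' := by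
  have hstep : ∀ q, q + 1 < T.m i → T.ex i q < T.ex i (q + 1) := by
    intro q hq
    have h1 := h (q + 1) hq
    unfold okR at h1
    simp only [band_iff, bor_iff, ble_iff, beq_iff] at h1
    obtain ⟨-, -, -, h2, -⟩ := h1
    rcases h2 with h2 | h2
    · omega
    · exact h2
  induction q' with
  | zero => omega
  | succ q' ih =>
    rcases Nat.lt_succ_iff_lt_or_eq.1 hqq with h1 | h1
    · exact (ih (by omega) h1).trans (hstep q' hq')
    · rw [h1]; exact hstep q' hq'

lemma nbrs_one {f : Site 1} : f ∈ nbrs (0 : Site 1) ↔ f = st 1 ∨ f = st (-1) := by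
  have e0 : (e 0 : Site 1) = st 1 := by
    ext i
    fin_cases i
    simp [e, st]
  rw [mem_nbrs]
  constructor
  · rintro ⟨i, h | h⟩
    · fin_cases i
      left
      rw [h, zero_add]; exact e0
    · fin_cases i
      right
      rw [h, zero_sub]
      change -(e 0 : Site 1) = _
      rw [e0]; rfl
  · rintro (h | h)
    · exact ⟨0, Or.inl (by rw [h, zero_add, e0])⟩
    · exact ⟨0, Or.inr (by rw [h, zero_sub, e0]; rfl)⟩

lemma mem_ringK {K : Shp 1} {w : Site 1} {k : ℤ} {r : Site 1 × ℤ}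
    (h : r ∈ K ∨ r = (w, k + 1) ∨ r = (w + st 1, k) ∨ r = (w + st (-1), k)) :
    r ∈ ringK K w k := by
  unfold ringK
  rw [List.mem_append, List.mem_cons, List.mem_map]
  rcases h with h | h | h | h
  · exact Or.inl h
  · exact Or.inr (Or.inl h)
  · exact Or.inr (Or.inr ⟨st 1, Finset.mem_toList.2 (nbrs_one.2 (Or.inl rfl)), h.symm⟩)
  · exact Or.inr (Or.inr ⟨st (-1), Finset.mem_toList.2 (nbrs_one.2 (Or.inr rfl)), h.symm⟩)

/-- the reflection -/
lemma sy_neg : Sy (fun x : Site 1 => -x) :=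
  ⟨1, fun _ => -1, by ext x i; simp [signedPerm]⟩

/-- a checked ring gives a target -/
lemma tgt_of_okR {T : Tb} {u c i q : ℕ} (hu : 0 < u) (hT : ∀ i < T.N, Spec T u c i) (hi : i < T.N)
    (hq : q < T.m i) :
    ((st (T.ex i q) : Site 1), ((T.ek i q : ℕ) : ℤ)) ∈ shp (T.cd i) ∧
    TgtS (fun i : Fin T.N => shp (T.cd i)) (fun i : Fin T.N => (T.ph i : ℝ) / u)
      (ringK (shp (T.cd i)) (st (T.ex i q)) ((T.ek i q : ℕ) : ℤ))
      (((u * T.ts i q + T.ph (T.tj i q) : ℕ) : ℝ) / u) := by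
  have h := (hT i hi).ok q hq
  unfold okR at h
  simp only [band_iff, ble_iff] at h
  obtain ⟨h1, h2, h3, -, h4, h5, h6⟩ := h
  set x := T.ex i q with hx
  set k := T.ek i q with hk
  set j := T.tj i q with hj
  set t := T.tt i q with ht
  set s := T.ts i q with hs
  have hj' : j < T.N := h1
  have hbit : (T.cd i).testBit (x + 32 * k) = true := by
    have h7 : (T.cd i >>> (x + 32 * k)) % 2 = 1 := beq_iff.1 h4
    rw [Nat.testBit_eq_decide_div_mod_eq, ← Nat.shiftRight_eq_div_pow, h7]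
    rfl
  have hmem : ((st (x : ℕ) : Site 1), ((k : ℕ) : ℤ)) ∈ shp (T.cd i) :=
    mem_shp.2 ⟨x, k, by omega, by omega, hbit, rfl⟩
  refine ⟨hmem, ?_⟩
  have hu' : (u : ℝ) ≠ 0 := by exact_mod_cast hu.ne'
  have hval : (((u * s + T.ph j : ℕ) : ℝ) / u) ≤ ((s : ℕ) : ℤ) + (T.ph j : ℝ) / u := by
    refine le_of_eq ?_
    push_cast
    field_simp
  cases hr : T.tr i q with
  | false =>
    rw [hr] at h6
    change sub _ (img (T.cd i) x k) = true at h6
    refine ⟨⟨j, hj'⟩, st ((t : ℤ) - 1), fun x => x, (s : ℕ), Sy.id, ?_, hval⟩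
    intro p hp
    obtain ⟨x', l', h7, h8, h9, rfl⟩ := mem_shp.1 hp
    have h10 : (T.cd j <<< (t + 32 * s)).testBit (x' + 32 * l' + (t + 32 * s)) = true := by
      rw [Nat.testBit_shiftLeft, Bool.and_eq_true, decide_eq_true_eq]
      refine ⟨by omega, ?_⟩
      rw [Nat.add_sub_cancel]
      exact h9
    have h11 := sub_iff h6 h10
    unfold img at h11
    change ((T.cd i <<< 1) ||| (stc k <<< x)).testBit _ = true at h11
    rw [Nat.testBit_or, Bool.or_eq_true, Nat.testBit_shiftLeft, Nat.testBit_shiftLeft,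
      Bool.and_eq_true, Bool.and_eq_true, decide_eq_true_eq, decide_eq_true_eq] at h11
    rcases h11 with ⟨h12, h13⟩ | ⟨h12, h13⟩
    · obtain ⟨y, l, h14, h15, h16⟩ := (hT i hi).msk _ h13
      have h17 : x' + t = y + 1 ∧ l' + s = l := by omega
      rw [h16] at h13
      refine ⟨(st y, (l : ℤ)), mem_ringK (Or.inl (mem_shp.2 ⟨y, l, h14, h15, h13, rfl⟩)), ?_, ?_⟩
      · change st (y : ℤ) = st ((t : ℤ) - 1) + st (x' : ℤ)
        rw [st_add]
        congr 1
        omega
      · change ((s : ℕ) : ℤ) + (l' : ℤ) ≤ (l : ℤ)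
        omega
    · rcases testBit_stc h13 with ⟨l, h14, h15⟩ | ⟨l, h14, h15⟩ | ⟨l, h14, h15⟩
      · have h17 : x' + t = x + 1 ∧ l' + s = l := by omega
        refine ⟨(st (x : ℤ), (k : ℤ) + 1), mem_ringK (Or.inr (Or.inl rfl)), ?_, ?_⟩
        · change st (x : ℤ) = st ((t : ℤ) - 1) + st (x' : ℤ)
          rw [st_add]
          congr 1
          omega
        · change ((s : ℕ) : ℤ) + (l' : ℤ) ≤ (k : ℤ) + 1
          omega
      · have h17 : x' + t = x ∧ l' + s = l := by omega
        refine ⟨(st (x : ℤ) + st (-1), (k : ℤ)), mem_ringK (Or.inr (Or.inr (Or.inr rfl))), ?_, ?_⟩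
        · change st (x : ℤ) + st (-1) = st ((t : ℤ) - 1) + st (x' : ℤ)
          rw [st_add, st_add]
          congr 1
          omega
        · change ((s : ℕ) : ℤ) + (l' : ℤ) ≤ (k : ℤ)
          omega
      · have h17 : x' + t = x + 2 ∧ l' + s = l := by omega
        refine ⟨(st (x : ℤ) + st 1, (k : ℤ)), mem_ringK (Or.inr (Or.inr (Or.inl rfl))), ?_, ?_⟩
        · change st (x : ℤ) + st 1 = st ((t : ℤ) - 1) + st (x' : ℤ)
          rw [st_add, st_add]
          congr 1
          omega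
        · change ((s : ℕ) : ℤ) + (l' : ℤ) ≤ (k : ℤ)
          omega
  | true =>
    rw [hr] at h6
    change sub _ (img (rev (T.cd i)) (13 - x) k) = true at h6
    refine ⟨⟨j, hj'⟩, st (14 - (t : ℤ)), fun x => -x, (s : ℕ), sy_neg, ?_, hval⟩
    intro p hp
    obtain ⟨x', l', h7, h8, h9, rfl⟩ := mem_shp.1 hp
    have h10 : (T.cd j <<< (t + 32 * s)).testBit (x' + 32 * l' + (t + 32 * s)) = true := by
      rw [Nat.testBit_shiftLeft, Bool.and_eq_true, decide_eq_true_eq]
      refine ⟨by omega, ?_⟩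
      rw [Nat.add_sub_cancel]
      exact h9
    have h11 := sub_iff h6 h10
    unfold img at h11
    change ((rev (T.cd i) <<< 1) ||| (stc k <<< (13 - x))).testBit _ = true at h11
    rw [Nat.testBit_or, Bool.or_eq_true, Nat.testBit_shiftLeft, Nat.testBit_shiftLeft,
      Bool.and_eq_true, Bool.and_eq_true, decide_eq_true_eq, decide_eq_true_eq] at h11
    have hneg : ∀ a b : ℤ, (st a : Site 1) + -(st b) = st (a - b) := fun a b => by
      ext i
      simp [st, sub_eq_add_neg]
    rcases h11 with ⟨h12, h13⟩ | ⟨h12, h13⟩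
    · obtain ⟨y, l, h14, h15, h16, h18⟩ := testBit_rev h13
      have h17 : x' + t = y + 1 ∧ l' + s = l := by omega
      refine ⟨(st ((13 - y : ℕ) : ℤ), (l : ℤ)), mem_ringK (Or.inl (mem_shp.2
        ⟨13 - y, l, by omega, h15, h18, rfl⟩)), ?_, ?_⟩
      · change st ((13 - y : ℕ) : ℤ) = st (14 - (t : ℤ)) + -(st (x' : ℤ))
        rw [hneg]
        congr 1
        omega
      · change ((s : ℕ) : ℤ) + (l' : ℤ) ≤ (l : ℤ)
        omega
    · rcases testBit_stc h13 with ⟨l, h14, h15⟩ | ⟨l, h14, h15⟩ | ⟨l, h14, h15⟩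
      · have h17 : x' + t = (13 - x) + 1 ∧ l' + s = l := by omega
        refine ⟨(st (x : ℤ), (k : ℤ) + 1), mem_ringK (Or.inr (Or.inl rfl)), ?_, ?_⟩
        · change st (x : ℤ) = st (14 - (t : ℤ)) + -(st (x' : ℤ))
          rw [hneg]
          congr 1
          omega
        · change ((s : ℕ) : ℤ) + (l' : ℤ) ≤ (k : ℤ) + 1
          omega
      · have h17 : x' + t = 13 - x ∧ l' + s = l := by omega
        refine ⟨(st (x : ℤ) + st 1, (k : ℤ)), mem_ringK (Or.inr (Or.inr (Or.inl rfl))), ?_, ?_⟩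
        · change st (x : ℤ) + st 1 = st (14 - (t : ℤ)) + -(st (x' : ℤ))
          rw [hneg, st_add]
          congr 1
          omega
        · change ((s : ℕ) : ℤ) + (l' : ℤ) ≤ (k : ℤ)
          omega
      · have h17 : x' + t = (13 - x) + 2 ∧ l' + s = l := by omega
        refine ⟨(st (x : ℤ) + st (-1), (k : ℤ)), mem_ringK (Or.inr (Or.inr (Or.inr rfl))), ?_, ?_⟩
        · change st (x : ℤ) + st (-1) = st (14 - (t : ℤ)) + -(st (x' : ℤ))
          rw [hneg, st_add]
          congr 1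
          omega
        · change ((s : ℕ) : ℤ) + (l' : ℤ) ≤ (k : ℤ)
          omega

/-- the check of all shapes gives the lower bound. The shape `0` is one site -/
theorem hasLB_of_chk {T : Tb} {u c D : ℕ} (hu : 0 < u) (hN : 0 < T.N) (h0 : T.cd 0 = pat D)
    (h : ∀ i < T.N, chk T u c i = true) : HasLB 1 ((c : ℝ) / u) := by
  have hT : ∀ i < T.N, Spec T u c i := fun i hi => spec (h i hi)
  refine IsLib.hasLB (lab := fun i : Fin T.N => shp (T.cd i))
    (ph := fun i : Fin T.N => (T.ph i : ℝ) / u) ⟨fun i => ?_, ?_, fun i => ?_⟩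
  · obtain ⟨N, hN⟩ := Nat.exists_testBit_of_ne_zero (hT i i.2).ne
    obtain ⟨x, l, h1, h2, h3⟩ := (hT i i.2).msk N hN
    rw [h3] at hN
    exact List.ne_nil_of_mem (mem_shp.2 ⟨x, l, h1, h2, hN, rfl⟩)
  · refine ⟨((-(D : ℤ) : ℤ) : ℝ) + (T.ph 0 : ℝ) / u, ⟨0, hN⟩, 0, fun x => x, -(D : ℤ), Sy.id, ?_,
      le_rfl⟩
    intro p hp
    obtain ⟨x, l, h1, h2, h3, rfl⟩ := mem_shp.1 hp
    have h4 : (pat D).testBit (x + 32 * l) = true := by
      rw [← h0]; exact h3
    obtain ⟨l', h5, h6⟩ := (testBit_pat _ _).1 h4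
    have h7 : x = 0 ∧ l' = l := by omega
    obtain ⟨rfl, rfl⟩ := h7
    refine ⟨((0 : Site 1), (0 : ℤ)), ?_, ?_, ?_⟩
    · unfold star
      exact List.mem_cons_self
    · change (0 : Site 1) = 0 + st ((0 : ℕ) : ℤ)
      rw [zero_add]
      rfl
    · change -(D : ℤ) + (l' : ℤ) ≤ 0
      omega
  · have hinj : Set.InjOn (fun q => (st (T.ex i q) : Site 1)) (Finset.range (T.m i) : Finset ℕ) := by
      intro q hq q' hq' hqq
      rw [Finset.mem_coe, Finset.mem_range] at hq hq'
      have h1 : (T.ex i q : ℤ) = T.ex i q' := st_inj hqq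
      have h2 : T.ex i q = T.ex i q' := by exact_mod_cast h1
      rcases lt_trichotomy q q' with h3 | h3 | h3
      · have := lt_of_ring (hT i i.2).ok hq' h3
        omega
      · exact h3
      · have := lt_of_ring (hT i i.2).ok hq h3
        omega
    -- the value of a site
    classical
    refine ⟨(Finset.range (T.m i)).image (fun q => (st (T.ex i q) : Site 1)),
      fun w => ∑ q ∈ (Finset.range (T.m i)).filter (fun q => (st (T.ex i q) : Site 1) = w),
        (((u * T.ts i q + T.ph (T.tj i q) : ℕ) : ℝ) / u), ?_, ?_⟩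
    · intro w hw
      obtain ⟨q, hq, rfl⟩ := Finset.mem_image.1 hw
      obtain ⟨h1, h2⟩ := tgt_of_okR hu hT i.2 (Finset.mem_range.1 hq)
      refine ⟨_, h1, ?_⟩
      have h3 : (Finset.range (T.m i)).filter (fun q' => (st (T.ex i q') : Site 1) =
          st (T.ex i q)) = {q} := by
        ext q'
        rw [Finset.mem_filter, Finset.mem_singleton]
        constructor
        · rintro ⟨h3, h4⟩
          exact hinj (Finset.mem_coe.2 h3) (Finset.mem_coe.2 hq) h4
        · rintro rfl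
          exact ⟨hq, rfl⟩
      beta_reduce
      rw [h3, Finset.sum_singleton]
      exact h2
    · rw [Finset.sum_image hinj]
      have h1 : ∀ q ∈ Finset.range (T.m i), ((∑ q' ∈ (Finset.range (T.m i)).filter
          (fun q' => (st (T.ex i q') : Site 1) = st (T.ex i q)),
          (((u * T.ts i q' + T.ph (T.tj i q') : ℕ) : ℝ) / u)) - (T.ph i : ℝ) / u) =
          (((u * T.ts i q + T.ph (T.tj i q) : ℕ) : ℝ) / u) - (T.ph i : ℝ) / u := by
        intro q hq
        have h3 : (Finset.range (T.m i)).filter (fun q' => (st (T.ex i q') : Site 1) =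
            st (T.ex i q)) = {q} := by
          ext q'
          rw [Finset.mem_filter, Finset.mem_singleton]
          constructor
          · rintro ⟨h3, h4⟩
            exact hinj (Finset.mem_coe.2 h3) (Finset.mem_coe.2 hq) h4
          · rintro rfl
            exact ⟨hq, rfl⟩
        rw [h3, Finset.sum_singleton]
      rw [Finset.sum_congr rfl h1, Finset.sum_sub_distrib, Finset.sum_const, Finset.card_range,
        nsmul_eq_mul]
      have h2 : ((c + T.m i * T.ph i : ℕ) : ℝ) ≤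
          ((∑ q ∈ Finset.range (T.m i), (u * T.ts i q + T.ph (T.tj i q)) : ℕ) : ℝ) := by
        exact_mod_cast (hT i i.2).sum
      have hu' : (0 : ℝ) < u := by exact_mod_cast hu
      rw [← Finset.sum_div, ← Nat.cast_sum, div_le_iff₀ hu', sub_mul, div_mul_cancel₀ _ hu'.ne']
      push_cast at h2 ⊢
      have h3 : (T.m i : ℝ) * (T.ph i / u) * u = T.m i * T.ph i := by
        field_simp
      rw [h3]
      linarith

end Pool.Agent.Lib.MP_67d80e_pr_shp
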