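import Pool.Agent.Lib.MP_67d80e_pr_shp.Sb0
import Pool.Agent.Lib.MP_67d80e_pr_shp.Sb1
import Pool.Agent.Lib.MP_67d80e_pr_shp.Sb2
import Pool.Agent.Lib.MP_67d80e_pr_shp.Sb3
import Pool.Agent.Lib.MP_67d80e_pr_shp.Sb4
import Pool.Agent.Lib.MP_67d80e_pr_shp.Sb5
import Pool.Agent.Lib.MP_67d80e_pr_shp.Sb6
import Pool.Agent.Lib.MP_67d80e_pr_shp.Sb7

set_option autoImplicit false
set_option maxRecDepth 100000

namespace Pool.Agent.Lib.MP_67d80e_pr_shp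

open Pool.Agent.Lib.MP_67d80e_pr_d1 (Tr)

/-- the data -/
def sb : Tr := .N (.N (.N sb0 sb4) (.N sb2 sb6)) (.N (.N sb1 sb5) (.N sb3 sb7))

/-- the table of the shapes -/
noncomputable def sbT : Tb := mk sb 10898

end Pool.Agent.Lib.MP_67d80e_pr_shp
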