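import Pool.Agent.Lib.MP_67d80e_pr_all.Supp

/-!
A library of shapes gives a lower bound.
-/

set_option autoImplicit false
set_option linter.unusedSectionVars false

open scoped BigOperators
open Filter MeasureTheory
open Pool.Agent.Lib.MP_67d80e_pr Pool.Agent.Lib.MP_67d80e_pr_all

namespace Pool.Agent.Lib.MP_67d80e_pr_shp

variable {d : ℕ}

/-- symmetries of the lattice fixing the origin -/
def Sy (σ : Site d → Site d) : Prop := ∃ (π : Equiv.Perm (Fin d)) (ε : Fin d → ℤˣ),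
  σ = signedPerm π ε

lemma Sy.id : Sy (fun x : Site d => x) := ⟨1, 1, by ext x i; simp [signedPerm]⟩

lemma Sy.comp {σ τ : Site d → Site d} (hσ : Sy σ) (hτ : Sy τ) : Sy (fun x => σ (τ x)) := by
  obtain ⟨π, ε, rfl⟩ := hσ
  obtain ⟨π', ε', rfl⟩ := hτ
  refine ⟨π' * π, fun i => ε i * ε' (π i), ?_⟩
  ext x i
  simp [signedPerm, mul_assoc]

section
variable {σ : Site d → Site d} (hσ : Sy σ)
include hσ

lemma Sy.add (x y : Site d) : σ (x + y) = σ x + σ y := by
  obtain ⟨π, ε, rfl⟩ := hσ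
  exact signedPerm_add π ε x y

lemma Sy.zero : σ 0 = 0 := by
  obtain ⟨π, ε, rfl⟩ := hσ
  exact signedPerm_zero π ε

lemma Sy.neg (x : Site d) : σ (-x) = -σ x := by
  obtain ⟨π, ε, rfl⟩ := hσ
  have := signedPerm_sub π ε 0 x
  rwa [signedPerm_zero, zero_sub, zero_sub] at this

lemma Sy.inj {x y : Site d} (h : σ x = σ y) : x = y := by
  obtain ⟨π, ε, rfl⟩ := hσ
  ext i
  have h1 := congrFun h (π.symm i)
  unfold signedPerm at h1
  rw [Equiv.apply_symm_apply] at h1
  rcases Int.units_eq_one_or (ε (π.symm i)) with h2 | h2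
  · simpa [h2] using h1
  · simpa [h2] using h1

lemma Sy.mem_nbrs_add {x f : Site d} (h : f ∈ nbrs (0 : Site d)) : x + σ f ∈ nbrs x := by
  have h0 := hσ.neg
  obtain ⟨π, ε, rfl⟩ := hσ
  rw [mem_nbrs] at h ⊢
  obtain ⟨i, h | h⟩ := h
  · rw [zero_add] at h
    subst h
    rcases signedPerm_e_cases π ε i with h1 | h1
    · exact ⟨π.symm i, Or.inl (by rw [h1])⟩
    · exact ⟨π.symm i, Or.inr (by rw [h1, sub_eq_add_neg])⟩
  · rw [zero_sub] at h
    subst h
    rcases signedPerm_e_cases π ε i with h1 | h1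
    · exact ⟨π.symm i, Or.inr (by rw [h0, h1, sub_eq_add_neg])⟩
    · exact ⟨π.symm i, Or.inl (by rw [h0, h1, neg_neg])⟩

end

/-- lower bounds of levels, relative to a site and a level -/
abbrev Shp (d : ℕ) := List (Site d × ℤ)

/-- the shape `K` is below the droplet in the given position -/
def Bel (a : Dr d) (m : ℤ) (y : Site d) (σ : Site d → Site d) (K : Shp d) : Prop :=
  ∀ p ∈ K, ((m + p.2 : ℤ) : WithBot ℤ) ≤ a (y + σ p.1)

/-- the shape `K` implies the shape `K'` in the position given by `t`, `τ`, `s` -/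
def ImpS (K : Shp d) (t : Site d) (τ : Site d → Site d) (s : ℤ) (K' : Shp d) : Prop :=
  ∀ p ∈ K', ∃ r ∈ K, r.1 = t + τ p.1 ∧ s + p.2 ≤ r.2

lemma Bel.imp {a : Dr d} {m s : ℤ} {y t : Site d} {σ τ : Site d → Site d} {K K' : Shp d}
    (hσ : Sy σ) (h : Bel a m y σ K) (hK : ImpS K t τ s K') :
    Bel a (m + s) (y + σ t) (fun x => σ (τ x)) K' := by
  intro p hp
  obtain ⟨r, hr, h1, h2⟩ := hK p hp
  have h3 := h r hr
  dsimp only
  rw [h1, hσ.add, ← add_assoc] at h3
  refine le_trans ?_ h3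
  exact_mod_cast (by omega : m + s + p.2 ≤ m + r.2)

lemma Bel.mono {a b : Dr d} (hab : ∀ z, a z ≤ b z) {m : ℤ} {y : Site d} {σ : Site d → Site d}
    {K : Shp d} (h : Bel a m y σ K) : Bel b m y σ K := fun p hp => (h p hp).trans (hab _)

/-- the star of a site -/
noncomputable def star (d : ℕ) : Shp d :=
  ((0 : Site d), (0 : ℤ)) :: (nbrs (0 : Site d)).toList.map fun f => (f, -1)

/-- the shape after a ring of the site `w` of known level `k` -/
noncomputable def ringK (K : Shp d) (w : Site d) (k : ℤ) : Shp d :=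
  K ++ (w, k + 1) :: (nbrs (0 : Site d)).toList.map fun f => (w + f, k)

lemma Bel.ring {a : Dr d} {m : ℤ} {y : Site d} {σ : Site d → Site d} {K : Shp d} (hσ : Sy σ)
    {w : Site d} {k : ℤ} (hw : (w, k) ∈ K) (h : Bel a m y σ K) :
    Bel (upd {y + σ w} a) m y σ (ringK K w k) := by
  have hlev := h _ hw
  dsimp only at hlev
  intro p hp
  unfold ringK at hp
  rw [List.mem_append, List.mem_cons, List.mem_map] at hp
  rcases hp with hp | rfl | ⟨g, hg, rfl⟩
  · exact (h p hp).trans (le_upd _ a _)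
  · dsimp only
    refine le_trans ?_ (upd_self (Set.mem_singleton _) a)
    rw [← add_assoc]
    push_cast
    push_cast at hlev
    gcongr
  · dsimp only
    rw [hσ.add, ← add_assoc]
    rw [Finset.mem_toList] at hg
    exact hlev.trans (upd_nbr (nbrs_symm.1 (hσ.mem_nbrs_add hg)) (Set.mem_singleton _) a)

lemma bel_star {a : Dr d} (ha : Good a) {m : ℤ} (hm : IsTop a m) {z : Site d}
    (hz : a z = ((m : ℤ) : WithBot ℤ)) : Bel a m z (fun x => x) (star d) := by
  intro p hp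
  unfold star at hp
  rw [List.mem_cons, List.mem_map] at hp
  rcases hp with rfl | ⟨f, hf, rfl⟩
  · dsimp only
    rw [add_zero, add_zero, hz]
  · dsimp only
    rw [Finset.mem_toList] at hf
    exact ha.top m hm z hz _ (Sy.id.mem_nbrs_add hf)

variable {ι : Type}

/-- the shape `K` implies a shape of the library of value at least `v` -/
def TgtS (lab : ι → Shp d) (ph : ι → ℝ) (K : Shp d) (v : ℝ) : Prop :=
  ∃ (j : ι) (t : Site d) (τ : Site d → Site d) (s : ℤ), Sy τ ∧ ImpS K t τ s (lab j) ∧ v ≤ s + ph j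

/-- libraries of shapes -/
structure IsLib (lab : ι → Shp d) (ph : ι → ℝ) (c : ℝ) : Prop where
  ne : ∀ i, lab i ≠ []
  base : ∃ v, TgtS lab ph (star d) v
  step : ∀ i, ∃ (E : Finset (Site d)) (v : Site d → ℝ),
    (∀ w ∈ E, ∃ k, (w, k) ∈ lab i ∧ TgtS lab ph (ringK (lab i) w k) (v w)) ∧
    c ≤ ∑ w ∈ E, (v w - ph i)

/-- the best position of a shape -/
def BestS (lab : ι → Shp d) (ph : ι → ℝ) (a : Dr d) (v : ℝ) : Prop :=
  (∃ (i : ι) (m : ℤ) (y : Site d) (σ : Site d → Site d), Sy σ ∧ Bel a m y σ (lab i) ∧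
    v = m + ph i) ∧
  ∀ (i : ι) (m : ℤ) (y : Site d) (σ : Site d → Site d), Sy σ → Bel a m y σ (lab i) → m + ph i ≤ v

section lib
variable [Fintype ι] {lab : ι → Shp d} {ph : ι → ℝ} {c : ℝ} (hL : IsLib lab ph c)
include hL

lemma IsLib.exists_base {a : Dr d} (ha : Good a) {m : ℤ} (hm : IsTop a m) {v : ℝ}
    (hv : TgtS lab ph (star d) v) : ∃ (i : ι) (m' : ℤ) (y : Site d) (σ : Site d → Site d),
      Sy σ ∧ Bel a m' y σ (lab i) ∧ m + v ≤ m' + ph i := by
  obtain ⟨z, hz⟩ := hm.2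
  obtain ⟨j, t, τ, s, hτ, hi, hv⟩ := hv
  have h1 := Bel.imp (σ := fun x : Site d => x) (τ := τ) Sy.id (bel_star ha hm hz) hi
  refine ⟨j, m + s, z + t, τ, hτ, h1, ?_⟩
  push_cast
  linarith

lemma IsLib.exists_bound : ∃ B : ℤ, ∀ (i : ι) (a : Dr d) (M : ℤ), (∀ z, a z ≤ ((M : ℤ) : WithBot ℤ)) →
    ∀ (m : ℤ) (y : Site d) (σ : Site d → Site d), Bel a m y σ (lab i) → m ≤ M + B := by
  classical
  have h1 : ∀ i, ∃ p : Site d × ℤ, p ∈ lab i := fun i => List.exists_mem_of_ne_nil _ (hL.ne i)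
  choose p hp using h1
  refine ⟨∑ i, |(p i).2|, fun i a M hM m y σ h => ?_⟩
  have h2 := (h _ (hp i)).trans (hM _)
  have h3 : m + (p i).2 ≤ M := by exact_mod_cast h2
  have h4 : |(p i).2| ≤ ∑ i, |(p i).2| :=
    Finset.single_le_sum (f := fun i => |(p i).2|) (fun _ _ => abs_nonneg _) (Finset.mem_univ i)
  have h5 := neg_abs_le (p i).2
  linarith

lemma IsLib.exists_best {a : Dr d} (ha : Good a) : ∃ v, BestS lab ph a v := by
  classical
  obtain ⟨M, hM⟩ := ha.exists_top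
  obtain ⟨B, hB⟩ := hL.exists_bound
  set P : ι → ℤ → Prop := fun i m => ∃ (y : Site d) (σ : Site d → Site d), Sy σ ∧
    Bel a m y σ (lab i) with hP
  set s : Finset ι := Finset.univ.filter fun i => ∃ m, P i m with hs
  have h1 : ∀ i ∈ s, ∃ m, P i m ∧ ∀ m', P i m' → m' ≤ m := by
    intro i hi
    rw [hs, Finset.mem_filter] at hi
    refine Int.exists_greatest_of_bdd ⟨M + B, fun m hm => ?_⟩ hi.2
    obtain ⟨y, σ, -, hb⟩ := hm
    exact hB i a M hM.1 m y σ hb
  choose! g hg1 hg2 using h1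
  have hne : s.Nonempty := by
    obtain ⟨v, hv⟩ := hL.base
    obtain ⟨i, m', y, σ, h1, h2, -⟩ := hL.exists_base ha hM hv
    refine ⟨i, ?_⟩
    rw [hs, Finset.mem_filter]
    exact ⟨Finset.mem_univ _, m', y, σ, h1, h2⟩
  obtain ⟨i, hi, hmax⟩ := Finset.exists_max_image s (fun i => (g i : ℝ) + ph i) hne
  obtain ⟨y, σ, h1, h2⟩ := hg1 i hi
  refine ⟨g i + ph i, ⟨i, g i, y, σ, h1, h2, rfl⟩, fun j m z τ h3 h4 => ?_⟩
  have hj : j ∈ s := by
    rw [hs, Finset.mem_filter]
    exact ⟨Finset.mem_univ _, m, z, τ, h3, h4⟩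
  have h5 := hg2 j hj m ⟨z, τ, h3, h4⟩
  have h6 := hmax j hj
  have h7 : (m : ℝ) ≤ g j := by exact_mod_cast h5
  linarith

end lib

open Classical in
/-- the potential of a library -/
noncomputable def potS (lab : ι → Shp d) (ph : ι → ℝ) (a : Dr d) : ℝ :=
  if h : ∃ v, BestS lab ph a v then h.choose else 0

/-- a library of shapes gives a lower bound -/
theorem IsLib.hasLB [Fintype ι] {lab : ι → Shp d} {ph : ι → ℝ} {c : ℝ} (hL : IsLib lab ph c) :
    HasLB d c := by
  classical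
  have hbest : ∀ a : Dr d, Good a → BestS lab ph a (potS lab ph a) := by
    intro a ha
    have h := hL.exists_best ha
    unfold potS
    rw [dif_pos h]
    exact h.choose_spec
  obtain ⟨v0, hv0⟩ := hL.base
  obtain ⟨B, hB⟩ := hL.exists_bound
  have hmono : ∀ a b : Dr d, Good a → Good b → (∀ z, a z ≤ b z) →
      potS lab ph a ≤ potS lab ph b := by
    intro a b ha hb hab
    obtain ⟨⟨i, m, y, σ, h1, h2, h3⟩, -⟩ := hbest a ha
    rw [h3]
    exact (hbest b hb).2 i m y σ h1 (h2.mono hab)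
  refine ⟨potS lab ph, |v0| + (|(B : ℝ)| + ∑ i, |ph i|), fun a M ha hM => ?_, hmono, ?_⟩
  · rw [abs_le]
    constructor
    · obtain ⟨i, m', y, σ, h1, h2, h3⟩ := hL.exists_base ha hM hv0
      have h4 := (hbest a ha).2 i m' y σ h1 h2
      have h5 := neg_abs_le v0
      have h6 : (0 : ℝ) ≤ |(B : ℝ)| + ∑ i, |ph i| :=
        add_nonneg (abs_nonneg _) (Finset.sum_nonneg fun _ _ => abs_nonneg _)
      linarith
    · obtain ⟨⟨i, m, y, σ, h1, h2, h3⟩, -⟩ := hbest a ha
      have h4 : (m : ℝ) ≤ M + B := by exact_mod_cast hB i a M hM.1 m y σ h2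
      have h5 : |ph i| ≤ ∑ i, |ph i| :=
        Finset.single_le_sum (f := fun i => |ph i|) (fun _ _ => abs_nonneg _) (Finset.mem_univ i)
      have h6 := le_abs_self (ph i)
      have h7 := le_abs_self (B : ℝ)
      have h8 := abs_nonneg v0
      rw [h3]
      linarith
  · intro a ha s hs
    obtain ⟨⟨i, m, y, σ, hσ, hbel, hval⟩, -⟩ := hbest a ha
    obtain ⟨E, v, hE, hc⟩ := hL.step i
    have hnn : ∀ x ∈ s, 0 ≤ potS lab ph (upd {x} a) - potS lab ph a :=
      fun x _ => sub_nonneg.2 (hmono _ _ ha (ha.upd x) (le_upd {x} a))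
    have hsub : E.image (fun w => y + σ w) ⊆ s := by
      intro x hx
      obtain ⟨w, hw, rfl⟩ := Finset.mem_image.1 hx
      obtain ⟨k, hk, -⟩ := hE w hw
      rw [hs]
      intro h0
      have := hbel _ hk
      dsimp only at this
      rw [h0] at this
      exact absurd this (by simp)
    have hinj : Set.InjOn (fun w => y + σ w) (E : Set (Site d)) :=
      fun w _ w' _ h => hσ.inj (add_left_cancel h)
    refine le_trans ?_ (Finset.sum_le_sum_of_subset_of_nonneg hsub fun x hx _ => hnn x hx)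
    rw [Finset.sum_image hinj]
    refine hc.trans (Finset.sum_le_sum fun w hw => ?_)
    obtain ⟨k, hk, j, t, τ, s', hτ, hi, hv⟩ := hE w hw
    have h1 := (hbel.ring hσ hk).imp hσ hi
    have h2 := (hbest _ (ha.upd (y + σ w))).2 j _ _ _ (hσ.comp hτ) h1
    rw [hval]
    push_cast at h2
    linarith

end Pool.Agent.Lib.MP_67d80e_pr_shp
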