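import Pool.Agent.Lib.MP_67d80e_pr_shp.Chk1
import Pool.Agent.Lib.MP_67d80e_pr_d1.Cert

/-!
Packed tables of shapes. A row has 550 bits: code 160, value 22, number of rings 4, and 28 bits for
every ring (column 4, level 3, target 15, shift 4, rise 1, reflection 1).
-/

set_option autoImplicit false

noncomputable section

namespace Pool.Agent.Lib.MP_67d80e_pr_shp

open Pool.Agent.Lib.MP_67d80e_pr_d1 (Tr)

/-- the row of a shape -/
def row (d : Tr) (i : ℕ) : ℕ :=
  Nat.mod (Nat.shiftRight (d.get (Nat.div i 32)) (Nat.mul 550 (Nat.mod i 32))) (Nat.pow 2 550)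

/-- the entry of a ring -/
def ent (d : Tr) (i q : ℕ) : ℕ :=
  Nat.mod (Nat.shiftRight (row d i) (Nat.add 186 (Nat.mul 28 q))) 268435456

/-- the table -/
def mk (d : Tr) (N : ℕ) : Tb where
  N := N
  cd i := Nat.mod (row d i) (Nat.pow 2 160)
  ph i := Nat.mod (Nat.shiftRight (row d i) 160) 4194304
  m i := Nat.mod (Nat.shiftRight (row d i) 182) 16
  ex i q := Nat.mod (ent d i q) 16
  ek i q := Nat.mod (Nat.shiftRight (ent d i q) 4) 8
  tj i q := Nat.mod (Nat.shiftRight (ent d i q) 7) 32768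
  tt i q := Nat.mod (Nat.shiftRight (ent d i q) 22) 16
  ts i q := Nat.mod (Nat.shiftRight (ent d i q) 26) 2
  tr i q := Nat.beq (Nat.shiftRight (ent d i q) 27) 1

end Pool.Agent.Lib.MP_67d80e_pr_shp
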